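import Mathlib
import Pool.Agent.STR.Stmts

/-!
# COH: coherence
-/

set_option autoImplicit false
set_option linter.style.longLine false
set_option linter.unusedSectionVars false

namespace Pool.Agent.STR.H38

open Finset

variable {α : Type} [Fintype α] [DecidableEq α]

theorem fl_fl (x : α → Bool) (i : α) : fl (fl x i) i = x := by
  funext j
  unfold fl
  by_cases h : j = i
  · subst h
    simp
  · simp [h]

theorem fl_comm (x : α → Bool) (i j : α) : fl (fl x i) j = fl (fl x j) i := by
  by_cases hij : i = j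
  · rw [hij]
  funext k
  unfold fl
  by_cases h : k = i
  · subst h
    simp [hij]
  · by_cases h' : k = j
    · subst h'
      simp [h, Ne.symm hij]
    · simp [h, h']

/-! ## Averages -/

theorem av_le {Ω : Type} [Fintype Ω] {f g : Ω → ℝ} (h : ∀ ω, f ω ≤ g ω) : av f ≤ av g := by
  unfold av
  exact div_le_div_of_nonneg_right (Finset.sum_le_sum fun ω _ => h ω) (Nat.cast_nonneg _)

theorem av_nonneg {Ω : Type} [Fintype Ω] {f : Ω → ℝ} (h : ∀ ω, 0 ≤ f ω) : 0 ≤ av f := by
  unfold av
  exact div_nonneg (Finset.sum_nonneg fun ω _ => h ω) (Nat.cast_nonneg _)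

theorem av_add {Ω : Type} [Fintype Ω] (f g : Ω → ℝ) : av (fun ω => f ω + g ω) = av f + av g := by
  unfold av
  rw [Finset.sum_add_distrib, add_div]

theorem av_sum {Ω ι : Type} [Fintype Ω] (s : Finset ι) (f : ι → Ω → ℝ) :
    av (fun ω => ∑ i ∈ s, f i ω) = ∑ i ∈ s, av (f i) := by
  unfold av
  rw [Finset.sum_comm, Finset.sum_div]

theorem av_fin_succ {S : Type} [Fintype S] (K : ℕ) (f : (Fin (K + 1) → S) → ℝ) :
    av f = av fun s : S => av fun ω : Fin K → S => f (Fin.cons s ω) := by
  unfold av
  have h1 : ∑ ω, f ω = ∑ s : S, ∑ ω : Fin K → S, f (Fin.cons s ω) := by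
    rw [← Fintype.sum_prod_type']
    exact (Fintype.sum_equiv (Fin.consEquiv fun _ => S) _ _ fun _ => rfl).symm
  rw [h1, Fintype.card_fun, Fintype.card_fin, Fintype.card_fun, Fintype.card_fin,
    ← Finset.sum_div, div_div, pow_succ]
  push_cast
  ring

/-! ## The chain -/

theorem run_cons {Q : ℕ} (a : ℕ → α → (α → Bool) → ℕ) (K : ℕ) (s : α × Fin Q)
    (ω : Fin K → α × Fin Q) (x : α → Bool) :
    run a (K + 1) (Fin.cons s ω) x = run (fun k => a (k + 1)) K ω (step (a 0) s x) := by
  induction K with
  | zero => rfl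
  | succ K ih =>
    have h1 : run a (K + 1 + 1) (Fin.cons s ω) x =
        step (a (K + 1)) (ω (Fin.last K))
          (run a (K + 1) (fun k => (Fin.cons s ω : Fin (K + 2) → α × Fin Q) k.castSucc) x) := rfl
    have h2 : (fun k : Fin (K + 1) => (Fin.cons s ω : Fin (K + 2) → α × Fin Q) k.castSucc) =
        Fin.cons s (fun k => ω k.castSucc) := by
      funext k
      refine Fin.cases ?_ (fun k => ?_) k
      · rfl
      · rw [← Fin.succ_castSucc, Fin.cons_succ, Fin.cons_succ]
    rw [h1, h2, ih]
    rfl

/-- The mean distance of the images of two points, with the same seeds. -/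
noncomputable def W {Q : ℕ} (a : ℕ → α → (α → Bool) → ℕ) (K : ℕ) (y z : α → Bool) : ℝ :=
  av fun ω : Fin K → α × Fin Q => (hammingDist (run a K ω y) (run a K ω z) : ℝ)

section W

variable {Q : ℕ} (a : ℕ → α → (α → Bool) → ℕ) (K : ℕ)

theorem W_nonneg (y z : α → Bool) : 0 ≤ W (Q := Q) a K y z := av_nonneg fun _ => Nat.cast_nonneg _

theorem W_self (y : α → Bool) : W (Q := Q) a K y y = 0 := by
  unfold W av
  simp

theorem W_symm (y z : α → Bool) : W (Q := Q) a K y z = W (Q := Q) a K z y := by
  unfold W
  congr 1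
  funext ω
  rw [hammingDist_comm]

theorem W_triangle (x y z : α → Bool) :
    W (Q := Q) a K x z ≤ W (Q := Q) a K x y + W (Q := Q) a K y z := by
  unfold W
  rw [← av_add]
  refine av_le fun ω => ?_
  exact_mod_cast hammingDist_triangle _ _ _

theorem W_succ (y z : α → Bool) : W (Q := Q) a (K + 1) y z =
    av fun s : α × Fin Q => W (Q := Q) (fun k => a (k + 1)) K (step (a 0) s y) (step (a 0) s z) := by
  unfold W
  rw [av_fin_succ]
  simp only [run_cons]

end W

/-- The indicator that the decisions are different. -/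
noncomputable def dif (A B U : ℕ) : ℝ := if (U < A ↔ U < B) then 0 else 1

theorem dif_nonneg (A B U : ℕ) : 0 ≤ dif A B U := by
  unfold dif
  split_ifs <;> norm_num

theorem sum_lt_ind (Q A : ℕ) (hA : A ≤ Q) : ∑ U : Fin Q, (if (U : ℕ) < A then (1 : ℝ) else 0) = A := by
  rw [Fin.sum_univ_eq_sum_range (fun U => if U < A then (1 : ℝ) else 0) Q,
    Finset.sum_ite, Finset.sum_const_zero, add_zero, Finset.sum_const, nsmul_eq_mul, mul_one]
  congr 1
  have : (Finset.range Q).filter (fun U => U < A) = Finset.range A := by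
    ext U
    rw [Finset.mem_filter, Finset.mem_range, Finset.mem_range]
    omega
  rw [this, Finset.card_range]

theorem sum_dif_aux (Q A B : ℕ) (hAB : A ≤ B) (hB : B ≤ Q) :
    ∑ U : Fin Q, dif A B U = (B : ℝ) - A := by
  rw [← sum_lt_ind Q B hB, ← sum_lt_ind Q A (hAB.trans hB), ← Finset.sum_sub_distrib]
  refine Finset.sum_congr rfl fun U _ => ?_
  unfold dif
  by_cases h1 : (U : ℕ) < A
  · have h2 : (U : ℕ) < B := by omega
    simp [h1, h2]
  · by_cases h2 : (U : ℕ) < B <;> simp [h1, h2]

theorem dif_comm (A B U : ℕ) : dif A B U = dif B A U := by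
  unfold dif
  simp only [iff_comm]

theorem sum_dif (Q A B : ℕ) (hA : A ≤ Q) (hB : B ≤ Q) :
    ∑ U : Fin Q, dif A B U = |(A : ℝ) - B| := by
  rcases le_total A B with h | h
  · rw [sum_dif_aux Q A B h hB, abs_sub_comm, abs_of_nonneg]
    exact sub_nonneg.mpr (by exact_mod_cast h)
  · have : ∀ U : Fin Q, dif A B U = dif B A U := fun U => dif_comm _ _ _
    simp only [this]
    rw [sum_dif_aux Q B A h hA, abs_of_nonneg]
    exact sub_nonneg.mpr (by exact_mod_cast h)

/-- One step of the coupling. -/
theorem W_step {Q : ℕ} (a' : ℕ → α → (α → Bool) → ℕ) (K : ℕ) (a0 : α → (α → Bool) → ℕ)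
    (h0 : ∀ j x, a0 j x = 0 ∨ a0 j (fl x j) = 0) (x : α → Bool) (i : α) (s : α × Fin Q) :
    W (Q := Q) a' K (step a0 s x) (step a0 s (fl x i)) ≤
      W (Q := Q) a' K (step a0 s x) (fl (step a0 s x) i) +
        (if s.1 = i then 0 else dif (a0 s.1 x) (a0 s.1 (fl x i)) s.2 *
          W (Q := Q) a' K (fl x i) (fl (fl x i) s.1)) := by
  obtain ⟨j, U⟩ := s
  simp only
  by_cases hji : j = i
  · subst hji
    rw [if_pos rfl, add_zero]
    by_cases h1 : (U : ℕ) < a0 j x
    · have h2 : ¬ (U : ℕ) < a0 j (fl x j) := by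
        rcases h0 j x with h | h
        · omega
        · omega
      have e1 : step a0 (j, U) x = fl x j := by
        unfold step
        simp [h1]
      have e2 : step a0 (j, U) (fl x j) = fl x j := by
        unfold step
        simp only
        rw [if_neg h2]
      rw [e1, e2, W_self]
      exact W_nonneg _ _ _ _
    · have e1 : step a0 (j, U) x = x := by
        unfold step
        simp only
        rw [if_neg h1]
      rw [e1]
      by_cases h2 : (U : ℕ) < a0 j (fl x j)
      · have e2 : step a0 (j, U) (fl x j) = x := by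
          unfold step
          simp only
          rw [if_pos h2, fl_fl]
        rw [e2, W_self]
        exact W_nonneg _ _ _ _
      · have e2 : step a0 (j, U) (fl x j) = fl x j := by
          unfold step
          simp only
          rw [if_neg h2]
        rw [e2]
  · rw [if_neg hji]
    by_cases h1 : (U : ℕ) < a0 j x
    · have e1 : step a0 (j, U) x = fl x j := by
        unfold step
        simp only
        rw [if_pos h1]
      rw [e1]
      by_cases h2 : (U : ℕ) < a0 j (fl x i)
      · have e2 : step a0 (j, U) (fl x i) = fl (fl x j) i := by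
          unfold step
          simp only
          rw [if_pos h2, fl_comm]
        rw [e2]
        have := mul_nonneg (dif_nonneg (a0 j x) (a0 j (fl x i)) U)
          (W_nonneg (Q := Q) a' K (fl x i) (fl (fl x i) j))
        linarith
      · have e2 : step a0 (j, U) (fl x i) = fl x i := by
          unfold step
          simp only
          rw [if_neg h2]
        have e3 : dif (a0 j x) (a0 j (fl x i)) U = 1 := by
          unfold dif
          rw [if_neg]
          tauto
        rw [e2, e3, one_mul]
        have ht := W_triangle (Q := Q) a' K (fl x j) (fl (fl x j) i) (fl x i)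
        have hs : W (Q := Q) a' K (fl (fl x j) i) (fl x i) =
            W (Q := Q) a' K (fl x i) (fl (fl x i) j) := by
          rw [W_symm, fl_comm]
        rw [hs] at ht
        exact ht
    · have e1 : step a0 (j, U) x = x := by
        unfold step
        simp only
        rw [if_neg h1]
      rw [e1]
      by_cases h2 : (U : ℕ) < a0 j (fl x i)
      · have e2 : step a0 (j, U) (fl x i) = fl (fl x i) j := by
          unfold step
          simp only
          rw [if_pos h2]
        have e3 : dif (a0 j x) (a0 j (fl x i)) U = 1 := by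
          unfold dif
          rw [if_neg]
          tauto
        rw [e2, e3, one_mul]
        exact W_triangle (Q := Q) a' K x (fl x i) (fl (fl x i) j)
      · have e2 : step a0 (j, U) (fl x i) = fl x i := by
          unfold step
          simp only
          rw [if_neg h2]
        rw [e2]
        have := mul_nonneg (dif_nonneg (a0 j x) (a0 j (fl x i)) U)
          (W_nonneg (Q := Q) a' K (fl x i) (fl (fl x i) j))
        linarith

theorem W_succ_le {Q : ℕ} (hQ : 0 < Q) (a : ℕ → α → (α → Bool) → ℕ) (K : ℕ)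
    (hQ' : ∀ k j x, a k j x ≤ Q) (h0 : ∀ k j x, a k j x = 0 ∨ a k j (fl x j) = 0)
    (x : α → Bool) (i : α) :
    W (Q := Q) a (K + 1) x (fl x i) ≤
      av (fun s : α × Fin Q => W (Q := Q) (fun k => a (k + 1)) K (step (a 0) s x)
        (fl (step (a 0) s x) i)) +
      (∑ j ∈ univ.erase i, |((a 0 j x : ℝ) - a 0 j (fl x i)) / Q| *
        W (Q := Q) (fun k => a (k + 1)) K (fl x i) (fl (fl x i) j)) / Fintype.card α := by
  have hQ0 : (Q : ℝ) ≠ 0 := by exact_mod_cast hQ.ne'
  rw [W_succ]
  refine (av_le fun s => W_step (fun k => a (k + 1)) K (a 0) (h0 0) x i s).trans ?_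
  rw [av_add]
  refine add_le_add le_rfl (le_of_eq ?_)
  unfold av
  rw [Fintype.card_prod, Fintype.card_fin, Fintype.sum_prod_type, Nat.cast_mul, mul_comm,
    ← div_div]
  congr 1
  rw [Finset.sum_div, ← Finset.add_sum_erase univ _ (Finset.mem_univ i)]
  simp only [if_true, Finset.sum_const_zero, zero_div, zero_add]
  refine Finset.sum_congr rfl fun j hj => ?_
  have hji : j ≠ i := (Finset.mem_erase.mp hj).1
  simp only [if_neg hji]
  rw [← Finset.sum_mul, sum_dif Q _ _ (hQ' 0 j x) (hQ' 0 j (fl x i)), abs_div]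
  have hQa : |(Q : ℝ)| = Q := abs_of_nonneg (Nat.cast_nonneg Q)
  rw [hQa]
  ring

theorem W_l2 {Q : ℕ} (hQ : 0 < Q) (b : ℝ) (hb : 0 ≤ b) : ∀ (K : ℕ)
    (a : ℕ → α → (α → Bool) → ℕ), (∀ k j x, a k j x ≤ Q) →
    (∀ k j x, a k j x = 0 ∨ a k j (fl x j) = 0) →
    (∀ k < K, ∀ x, ∑ i, ∑ j ∈ univ.erase i, (((a k j x : ℝ) - a k j (fl x i)) / Q) ^ 2 ≤
      (Fintype.card α * b) ^ 2) →
    ∀ x, √(∑ i, W (Q := Q) a K x (fl x i) ^ 2) ≤ √(Fintype.card α) * (1 + b) ^ K := by
  intro K
  induction K with
  | zero =>
    intro a _ _ _ x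
    rw [pow_zero, mul_one]
    refine Real.sqrt_le_sqrt ?_
    have : ∀ i, W (Q := Q) a 0 x (fl x i) = 1 := by
      intro i
      unfold W av
      have hd : hammingDist x (fl x i) = 1 := by
        unfold hammingDist fl
        rw [Finset.card_eq_one]
        refine ⟨i, ?_⟩
        ext j
        rw [Finset.mem_filter, Finset.mem_singleton]
        by_cases h : j = i
        · subst h
          simp
        · simp [h]
      simp [run, hd]
    simp [this]
  | succ K ih =>
    intro a hQ' h0 hB x
    have IH := ih (fun k => a (k + 1)) (fun k => hQ' (k + 1)) (fun k => h0 (k + 1))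
      (fun k hk => hB (k + 1) (by omega))
    set w : α → ℝ := fun i => W (Q := Q) a (K + 1) x (fl x i) with hw
    set V : ℝ := √(Fintype.card α) * (1 + b) ^ K with hV
    have hV0 : 0 ≤ V := by positivity
    set R : ℝ := √(∑ i, w i ^ 2) with hR
    have hR0 : 0 ≤ R := Real.sqrt_nonneg _
    have hR2 : R ^ 2 = ∑ i, w i ^ 2 := Real.sq_sqrt (Finset.sum_nonneg fun i _ => sq_nonneg _)
    have hw0 : ∀ i, 0 ≤ w i := fun i => W_nonneg _ _ _ _
    rcases isEmpty_or_nonempty α with hα | hα
    · rw [hR]
      simp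
    have hN : (0 : ℝ) < Fintype.card α := by exact_mod_cast Fintype.card_pos
    have : Nonempty (Fin Q) := ⟨⟨0, hQ⟩⟩
    have hS : (0 : ℝ) < Fintype.card (α × Fin Q) := by exact_mod_cast Fintype.card_pos
    -- the two parts
    have h1 : ∑ i, w i * av (fun s : α × Fin Q => W (Q := Q) (fun k => a (k + 1)) K
        (step (a 0) s x) (fl (step (a 0) s x) i)) ≤ R * V := by
      have : ∑ i, w i * av (fun s : α × Fin Q => W (Q := Q) (fun k => a (k + 1)) K
          (step (a 0) s x) (fl (step (a 0) s x) i)) =
          av fun s : α × Fin Q => ∑ i, w i * W (Q := Q) (fun k => a (k + 1)) K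
            (step (a 0) s x) (fl (step (a 0) s x) i) := by
        rw [av_sum]
        refine Finset.sum_congr rfl fun i _ => ?_
        unfold av
        rw [← Finset.mul_sum, mul_div_assoc]
      rw [this]
      have hle : (av fun s : α × Fin Q => ∑ i, w i * W (Q := Q) (fun k => a (k + 1)) K
            (step (a 0) s x) (fl (step (a 0) s x) i)) ≤ av fun _ : α × Fin Q => R * V := by
        refine av_le fun s => ?_
        refine (Real.sum_mul_le_sqrt_mul_sqrt _ _ _).trans ?_
        exact mul_le_mul_of_nonneg_left (IH _) hR0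
      refine hle.trans (le_of_eq ?_)
      unfold av
      rw [Finset.sum_const, nsmul_eq_mul, Finset.card_univ]
      field_simp
    have h2 : ∑ i, w i * ((∑ j ∈ univ.erase i, |((a 0 j x : ℝ) - a 0 j (fl x i)) / Q| *
        W (Q := Q) (fun k => a (k + 1)) K (fl x i) (fl (fl x i) j)) / Fintype.card α) ≤
        R * V * b := by
      set β : α → ℝ := fun i => √(∑ j ∈ univ.erase i, (((a 0 j x : ℝ) - a 0 j (fl x i)) / Q) ^ 2)
        with hβ
      have hβ0 : ∀ i, 0 ≤ β i := fun i => Real.sqrt_nonneg _
      have h3 : ∀ i, ∑ j ∈ univ.erase i, |((a 0 j x : ℝ) - a 0 j (fl x i)) / Q| *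
          W (Q := Q) (fun k => a (k + 1)) K (fl x i) (fl (fl x i) j) ≤ β i * V := by
        intro i
        refine (Real.sum_mul_le_sqrt_mul_sqrt _ _ _).trans ?_
        refine mul_le_mul (le_of_eq ?_) ?_ (Real.sqrt_nonneg _) (hβ0 i)
        · rw [hβ]
          simp only [sq_abs]
        · refine le_trans (Real.sqrt_le_sqrt ?_) (IH (fl x i))
          exact Finset.sum_le_sum_of_subset_of_nonneg (Finset.erase_subset _ _)
            fun j _ _ => sq_nonneg _
      have h4 : √(∑ i, β i ^ 2) ≤ Fintype.card α * b := by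
        have h5 : ∑ i, β i ^ 2 ≤ (Fintype.card α * b) ^ 2 := by
          refine le_trans (le_of_eq ?_) (hB 0 (by omega) x)
          refine Finset.sum_congr rfl fun i _ => ?_
          exact Real.sq_sqrt (Finset.sum_nonneg fun j _ => sq_nonneg _)
        calc √(∑ i, β i ^ 2) ≤ √((Fintype.card α * b) ^ 2) := Real.sqrt_le_sqrt h5
          _ = Fintype.card α * b := Real.sqrt_sq (by positivity)
      calc ∑ i, w i * ((∑ j ∈ univ.erase i, |((a 0 j x : ℝ) - a 0 j (fl x i)) / Q| *
            W (Q := Q) (fun k => a (k + 1)) K (fl x i) (fl (fl x i) j)) / Fintype.card α)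
          ≤ ∑ i, w i * (β i * V / Fintype.card α) := by
            refine Finset.sum_le_sum fun i _ => ?_
            exact mul_le_mul_of_nonneg_left (div_le_div_of_nonneg_right (h3 i) hN.le) (hw0 i)
        _ = (∑ i, w i * β i) * V / Fintype.card α := by
            rw [Finset.sum_mul, Finset.sum_div]
            refine Finset.sum_congr rfl fun i _ => ?_
            ring
        _ ≤ (R * (Fintype.card α * b)) * V / Fintype.card α := by
            refine div_le_div_of_nonneg_right (mul_le_mul_of_nonneg_right ?_ hV0) hN.le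
            refine (Real.sum_mul_le_sqrt_mul_sqrt _ _ _).trans ?_
            exact mul_le_mul_of_nonneg_left h4 hR0
        _ = R * V * b := by
            field_simp
    have h6 : R ^ 2 ≤ R * (V * (1 + b)) := by
      rw [hR2]
      calc ∑ i, w i ^ 2 ≤ ∑ i, w i * (av (fun s : α × Fin Q => W (Q := Q) (fun k => a (k + 1)) K
            (step (a 0) s x) (fl (step (a 0) s x) i)) +
            (∑ j ∈ univ.erase i, |((a 0 j x : ℝ) - a 0 j (fl x i)) / Q| *
            W (Q := Q) (fun k => a (k + 1)) K (fl x i) (fl (fl x i) j)) / Fintype.card α) := by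
            refine Finset.sum_le_sum fun i _ => ?_
            rw [sq]
            exact mul_le_mul_of_nonneg_left (W_succ_le hQ a K hQ' h0 x i) (hw0 i)
        _ ≤ R * V + R * V * b := by
            simp only [mul_add, Finset.sum_add_distrib]
            exact add_le_add h1 h2
        _ = R * (V * (1 + b)) := by ring
    have h7 : R ≤ V * (1 + b) := by
      rcases hR0.eq_or_lt with h | h
      · rw [← h]
        positivity
      · rw [sq] at h6
        exact le_of_mul_le_mul_left h6 h
    rw [pow_succ, ← mul_assoc]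
    exact h7

/-- COH -/
theorem coh : CohStmt := by
  intro α _ _ Q K a b hQ hb hQ' h0 hB x
  rw [av_sum]
  have h1 := W_l2 hQ b hb K a hQ' h0 hB x
  have h2 : ∑ i, W (Q := Q) a K x (fl x i) ≤
      √(∑ _i : α, (1 : ℝ) ^ 2) * √(∑ i, W (Q := Q) a K x (fl x i) ^ 2) := by
    have := Real.sum_mul_le_sqrt_mul_sqrt (Finset.univ : Finset α) (fun _ => (1 : ℝ))
      (fun i => W (Q := Q) a K x (fl x i))
    simpa using this
  change ∑ i, W (Q := Q) a K x (fl x i) ≤ _
  refine h2.trans ?_
  have h3 : √(∑ _i : α, (1 : ℝ) ^ 2) = √(Fintype.card α) := by simp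
  rw [h3]
  calc √(Fintype.card α) * √(∑ i, W (Q := Q) a K x (fl x i) ^ 2)
      ≤ √(Fintype.card α) * (√(Fintype.card α) * (1 + b) ^ K) :=
        mul_le_mul_of_nonneg_left h1 (Real.sqrt_nonneg _)
    _ = Fintype.card α * (1 + b) ^ K := by
        rw [← mul_assoc, Real.mul_self_sqrt (Nat.cast_nonneg _)]

end Pool.Agent.STR.H38

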