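import Mathlib
import Pool.Agent.STR.Stmts

/-!
# POT: the potential
-/

set_option autoImplicit false
set_option linter.style.longLine false
set_option linter.unusedSectionVars false

namespace Pool.Agent.STR.H38P

open Finset

variable {α : Type} [Fintype α] [DecidableEq α]

/-- The Walsh components. -/
noncomputable def cS (F : (α → Bool) → ℝ) (S : Finset α) (x : α → Bool) : ℝ :=
  (∑ y, (∏ i ∈ S, chi (x i) (y i)) * F y) / 2 ^ Fintype.card α

theorem T_eq (t : ℝ) (F : (α → Bool) → ℝ) (x : α → Bool) :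
    T t F x = ∑ S : Finset α, t ^ S.card * cS F S x := by
  unfold T cS
  have h1 : ∀ y : α → Bool, (∏ i, (1 + t * chi (x i) (y i)) / 2) * F y =
      ∑ S : Finset α, (t ^ S.card * ((∏ i ∈ S, chi (x i) (y i)) * F y)) / 2 ^ Fintype.card α := by
    intro y
    rw [Finset.prod_div_distrib, Finset.prod_const, Finset.card_univ, Finset.prod_one_add,
      Finset.powerset_univ, ← Finset.sum_div, div_mul_eq_mul_div, Finset.sum_mul]
    congr 1
    refine Finset.sum_congr rfl fun S _ => ?_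
    rw [Finset.prod_mul_distrib, Finset.prod_const]
    ring
  simp only [h1]
  rw [Finset.sum_comm]
  refine Finset.sum_congr rfl fun S _ => ?_
  rw [← Finset.sum_div, ← Finset.mul_sum, mul_div_assoc]

theorem chi_not (a b : Bool) : chi (!a) b = - chi a b := by
  unfold chi
  cases a <;> cases b <;> simp

theorem cS_fl_mem (F : (α → Bool) → ℝ) {S : Finset α} {j : α} (hj : j ∈ S) (x : α → Bool) :
    cS F S (fl x j) = - cS F S x := by
  unfold cS
  rw [← neg_div, ← Finset.sum_neg_distrib]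
  congr 1
  refine Finset.sum_congr rfl fun y _ => ?_
  rw [← Finset.mul_prod_erase S _ hj, ← Finset.mul_prod_erase S (fun i => chi (x i) (y i)) hj]
  have h1 : ∏ i ∈ S.erase j, chi (fl x j i) (y i) = ∏ i ∈ S.erase j, chi (x i) (y i) := by
    refine Finset.prod_congr rfl fun i hi => ?_
    have : fl x j i = x i := by
      unfold fl
      rw [Function.update_of_ne (Finset.mem_erase.mp hi).1]
    rw [this]
  have h2 : fl x j j = !x j := by
    unfold fl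
    rw [Function.update_self]
  rw [h1, h2, chi_not]
  ring

theorem cS_fl_notMem (F : (α → Bool) → ℝ) {S : Finset α} {j : α} (hj : j ∉ S) (x : α → Bool) :
    cS F S (fl x j) = cS F S x := by
  unfold cS
  congr 1
  refine Finset.sum_congr rfl fun y _ => ?_
  congr 1
  refine Finset.prod_congr rfl fun i hi => ?_
  have : fl x j i = x i := by
    unfold fl
    rw [Function.update_of_ne]
    rintro rfl
    exact hj hi
  rw [this]

theorem cS_empty (F : (α → Bool) → ℝ) (x : α → Bool) : cS F ∅ x = av F := by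
  unfold cS av
  simp

/-- The nonempty sets. -/
def ne (α : Type) [Fintype α] [DecidableEq α] : Finset (Finset α) := univ.erase ∅

/-- The potential, with a parameter. -/
noncomputable def U (ρ : ℝ) (F : (α → Bool) → ℝ) (t : ℝ) (x : α → Bool) : ℝ :=
  ∑ S ∈ ne α, t ^ S.card * (ρ ^ S.card / S.card * cS F S x)

theorem card_pos_of_ne {S : Finset α} (hS : S ∈ ne α) : 0 < S.card := by
  unfold ne at hS
  rw [Finset.card_pos, Finset.nonempty_iff_ne_empty]
  exact (Finset.mem_erase.mp hS).1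

theorem pot_eq (ρ : ℝ) (F : (α → Bool) → ℝ) (x : α → Bool) :
    ∑ j, (U ρ F 1 x - U ρ F 1 (fl x j)) / 2 = T ρ F x - av F := by
  have h1 : ∀ j, (U ρ F 1 x - U ρ F 1 (fl x j)) / 2 =
      ∑ S ∈ ne α, if j ∈ S then ρ ^ S.card / S.card * cS F S x else 0 := by
    intro j
    unfold U
    rw [← Finset.sum_sub_distrib, Finset.sum_div]
    refine Finset.sum_congr rfl fun S _ => ?_
    split_ifs with h
    · rw [cS_fl_mem F h]
      ring
    · rw [cS_fl_notMem F h]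
      ring
  simp only [h1]
  rw [Finset.sum_comm, T_eq, ← Finset.add_sum_erase univ _ (Finset.mem_univ (∅ : Finset α)),
    Finset.card_empty, pow_zero, one_mul, cS_empty, add_sub_cancel_left]
  refine Finset.sum_congr rfl fun S hS => ?_
  have hc : (S.card : ℝ) ≠ 0 := by exact_mod_cast (card_pos_of_ne hS).ne'
  rw [Finset.sum_ite_mem, Finset.univ_inter, Finset.sum_const, nsmul_eq_mul]
  field_simp

theorem key (ρ : ℝ) (F : (α → Bool) → ℝ) (Λ : ((α → Bool) → ℝ) →ₗ[ℝ] ℝ)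
    (hΛ : Λ (fun _ => 1) = 0) :
    ∃ c : ℝ, 0 < c ∧ c < 1 ∧ Λ (U ρ F 1) = Λ (T (c * ρ) F) / c := by
  set d : Finset α → ℝ := fun S => Λ (cS F S) with hd
  have hU : ∀ t, Λ (U ρ F t) = ∑ S ∈ ne α, t ^ S.card * (ρ ^ S.card / S.card * d S) := by
    intro t
    have : U ρ F t = ∑ S ∈ ne α, (t ^ S.card * (ρ ^ S.card / S.card)) • cS F S := by
      funext x
      rw [Finset.sum_apply]
      unfold U
      refine Finset.sum_congr rfl fun S _ => ?_
      rw [Pi.smul_apply, smul_eq_mul, mul_assoc]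
    rw [this, map_sum]
    refine Finset.sum_congr rfl fun S _ => ?_
    rw [map_smul, smul_eq_mul, mul_assoc]
  have hT : ∀ s, Λ (T s F) = ∑ S ∈ ne α, s ^ S.card * d S := by
    intro s
    have : T s F = ∑ S : Finset α, (s ^ S.card) • cS F S := by
      funext x
      rw [Finset.sum_apply, T_eq]
      rfl
    rw [this, map_sum, ← Finset.add_sum_erase univ _ (Finset.mem_univ (∅ : Finset α))]
    have h0 : Λ ((s ^ (∅ : Finset α).card) • cS F ∅) = 0 := by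
      have h1 : cS F ∅ = (av F) • (fun _ : α → Bool => (1 : ℝ)) := by
        funext x
        rw [cS_empty, Pi.smul_apply, smul_eq_mul, mul_one]
      rw [map_smul, h1, map_smul, hΛ, smul_zero, smul_zero]
    rw [h0, zero_add]
    refine Finset.sum_congr rfl fun S _ => ?_
    rw [map_smul, smul_eq_mul]
  set G : ℝ → ℝ := fun t => ∑ S ∈ ne α, t ^ S.card * (ρ ^ S.card / S.card * d S) with hG
  set G' : ℝ → ℝ := fun t => ∑ S ∈ ne α, (S.card * t ^ (S.card - 1)) *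
    (ρ ^ S.card / S.card * d S) with hG'
  have hder : ∀ t, HasDerivAt G (G' t) t := by
    intro t
    refine HasDerivAt.fun_sum fun S _ => ?_
    exact (hasDerivAt_pow S.card t).mul_const _
  obtain ⟨c, hc, hc'⟩ := exists_hasDerivAt_eq_slope G G' zero_lt_one
    (fun t _ => (hder t).continuousAt.continuousWithinAt) fun t _ => hder t
  refine ⟨c, hc.1, hc.2, ?_⟩
  have hG0 : G 0 = 0 := by
    rw [hG]
    refine Finset.sum_eq_zero fun S hS => ?_
    rw [zero_pow (card_pos_of_ne hS).ne', zero_mul]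
  rw [hG0, sub_zero, sub_zero, div_one] at hc'
  rw [hU 1, hT]
  change G 1 = _
  rw [← hc', hG', Finset.sum_div]
  refine Finset.sum_congr rfl fun S hS => ?_
  have hcard : (S.card : ℝ) ≠ 0 := by exact_mod_cast (card_pos_of_ne hS).ne'
  have hc0 : c ≠ 0 := hc.1.ne'
  have hp : c ^ S.card = c ^ (S.card - 1) * c := by
    rw [← pow_succ, Nat.sub_add_cancel (card_pos_of_ne hS)]
  rw [mul_pow, hp]
  field_simp

theorem num1 (ρ c : ℝ) (h0 : 0 < ρ) (h1 : ρ < 1) (hc0 : 0 < c) (hc1 : c < 1) :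
    4 * (c * ρ) ^ 2 / (1 - (c * ρ) ^ 2) * 2 ^ 2 ≤ (12 / (1 - ρ) * c) ^ 2 := by
  have h2 : 0 < 1 - ρ := by linarith
  have h3 : c * ρ < ρ := by nlinarith
  have h4 : 0 < c * ρ := by positivity
  have h5 : (c * ρ) ^ 2 ≤ ρ ^ 2 := by nlinarith
  have h6 : 1 - ρ ≤ 1 - (c * ρ) ^ 2 := by nlinarith
  have h7 : 0 < 1 - (c * ρ) ^ 2 := by linarith
  rw [div_mul_eq_mul_div, div_le_iff₀ h7]
  have h8 : (12 / (1 - ρ) * c) ^ 2 * (1 - (c * ρ) ^ 2) ≥ (12 / (1 - ρ) * c) ^ 2 * (1 - ρ) :=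
    mul_le_mul_of_nonneg_left h6 (sq_nonneg _)
  have h9 : (12 / (1 - ρ) * c) ^ 2 * (1 - ρ) = 144 * c ^ 2 / (1 - ρ) := by
    field_simp
    ring
  rw [h9] at h8
  have h10 : 144 * c ^ 2 ≤ 144 * c ^ 2 / (1 - ρ) := by
    rw [le_div_iff₀ h2]
    nlinarith [sq_nonneg c]
  have h11 : 4 * (c * ρ) ^ 2 * 2 ^ 2 ≤ 144 * c ^ 2 := by
    have : ρ ^ 2 ≤ 1 := by nlinarith
    nlinarith [sq_nonneg c, mul_nonneg (sq_nonneg c) (sub_nonneg.mpr this)]
  linarith

theorem num2 (ρ c : ℝ) (h0 : 0 < ρ) (h1 : ρ < 1) (hc0 : 0 < c) (hc1 : c < 1) :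
    2 * (4 * (c * ρ) ^ 2 / (1 - (c * ρ) ^ 2)) ^ 2 * 2 ^ 2 ≤ (12 / (1 - ρ) * c) ^ 2 := by
  have h2 : 0 < 1 - ρ := by linarith
  have h4 : 0 < c * ρ := by positivity
  have h3 : c * ρ < ρ := by nlinarith
  have h3' : c * ρ < 1 := h3.trans h1
  have h5 : (c * ρ) ^ 2 ≤ c * ρ := by
    rw [sq]
    exact mul_le_of_le_one_right h4.le h3'.le
  have h6 : 1 - ρ ≤ 1 - (c * ρ) ^ 2 := by linarith
  have h7 : 0 < 1 - (c * ρ) ^ 2 := by linarith
  have h8 : 4 * (c * ρ) ^ 2 / (1 - (c * ρ) ^ 2) ≤ 4 * c / (1 - ρ) := by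
    refine div_le_div₀ (by positivity) ?_ h2 h6
    nlinarith
  have h9 : 0 ≤ 4 * (c * ρ) ^ 2 / (1 - (c * ρ) ^ 2) := by positivity
  have h10 : (4 * (c * ρ) ^ 2 / (1 - (c * ρ) ^ 2)) ^ 2 ≤ (4 * c / (1 - ρ)) ^ 2 :=
    pow_le_pow_left₀ h9 h8 2
  have h11 : (12 / (1 - ρ) * c) ^ 2 = 9 * (4 * c / (1 - ρ)) ^ 2 := by
    field_simp
    ring
  rw [h11]
  nlinarith [sq_nonneg (4 * c / (1 - ρ))]

theorem num0 (ρ : ℝ) (h0 : 0 < ρ) (h1 : ρ < 1) :
    4 * ρ ^ 2 / (1 - ρ ^ 2) * 2 ^ 2 ≤ (12 / (1 - ρ)) ^ 2 := by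
  have h2 : 0 < 1 - ρ := by linarith
  have h5 : ρ ^ 2 ≤ ρ := by nlinarith
  have h7 : 0 < 1 - ρ ^ 2 := by linarith
  rw [div_mul_eq_mul_div, div_pow, div_le_div_iff₀ h7 (by positivity)]
  have h8 : (1 - ρ) ^ 2 ≤ 1 - ρ := by nlinarith
  nlinarith [sq_nonneg ρ, sq_nonneg (1 - ρ)]

/-- The duality argument. -/
theorem dual_bound {ι : Type} (P : Finset ι) (D : ι → ((α → Bool) → ℝ) →ₗ[ℝ] ℝ)
    (hD : ∀ i, D i (fun _ => 1) = 0) (ρ : ℝ) (F : (α → Bool) → ℝ) (B : ℝ) (hB : 0 ≤ B)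
    (h : ∀ c : ℝ, 0 < c → c < 1 → ∑ i ∈ P, (D i (T (c * ρ) F)) ^ 2 ≤ (B * c) ^ 2) :
    ∑ i ∈ P, (D i (U ρ F 1)) ^ 2 ≤ B ^ 2 := by
  set a : ι → ℝ := fun i => D i (U ρ F 1) with ha
  set Y : ℝ := √(∑ i ∈ P, a i ^ 2) with hY
  have hY0 : 0 ≤ Y := Real.sqrt_nonneg _
  have hY2 : Y ^ 2 = ∑ i ∈ P, a i ^ 2 := Real.sq_sqrt (Finset.sum_nonneg fun i _ => sq_nonneg _)
  obtain ⟨c, hc0, hc1, hc⟩ := key ρ F (∑ i ∈ P, a i • D i) (by
    rw [LinearMap.sum_apply]
    refine Finset.sum_eq_zero fun i _ => ?_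
    rw [LinearMap.smul_apply, hD, smul_zero])
  rw [LinearMap.sum_apply, LinearMap.sum_apply] at hc
  simp only [LinearMap.smul_apply, smul_eq_mul] at hc
  have h1 : Y ^ 2 = (∑ i ∈ P, a i * D i (T (c * ρ) F)) / c := by
    rw [hY2, ← hc]
    refine Finset.sum_congr rfl fun i _ => ?_
    rw [sq]
  have h2 : ∑ i ∈ P, a i * D i (T (c * ρ) F) ≤ Y * (B * c) := by
    refine (Real.sum_mul_le_sqrt_mul_sqrt _ _ _).trans ?_
    refine mul_le_mul_of_nonneg_left ?_ hY0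
    calc √(∑ i ∈ P, D i (T (c * ρ) F) ^ 2) ≤ √((B * c) ^ 2) := Real.sqrt_le_sqrt (h c hc0 hc1)
      _ = B * c := Real.sqrt_sq (by positivity)
  have h3 : Y ^ 2 ≤ Y * B := by
    rw [h1, div_le_iff₀ hc0]
    calc _ ≤ Y * (B * c) := h2
      _ = Y * B * c := by ring
  have h4 : Y ≤ B := by
    rcases hY0.eq_or_lt with h5 | h5
    · rw [← h5]
      exact hB
    · rw [sq] at h3
      exact le_of_mul_le_mul_left h3 h5
  change ∑ i ∈ P, a i ^ 2 ≤ B ^ 2
  rw [← hY2]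
  exact pow_le_pow_left₀ hY0 h4 2

/-- The evaluation. -/
def ev (x : α → Bool) : ((α → Bool) → ℝ) →ₗ[ℝ] ℝ := LinearMap.proj x

/-- POT -/
theorem pot (hbes : BesStmt) : PotStmt := by
  intro α _ _ ρ F h0 h1 hF
  have hB : 0 ≤ 12 / (1 - ρ) := div_nonneg (by norm_num) (by linarith)
  have hs : ∀ c : ℝ, 0 < c → c < 1 → 0 ≤ c * ρ ∧ c * ρ < 1 := fun c hc0 hc1 =>
    ⟨by positivity, by nlinarith⟩
  refine ⟨U ρ F 1, pot_eq ρ F, fun x => ?_, fun x => ?_, fun x => ?_⟩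
  · refine dual_bound univ (fun j => ev (fl x j) - ev x) (fun j => ?_) ρ F _ hB fun c hc0 hc1 => ?_
    · simp [ev]
    · exact ((hbes α (c * ρ) F 2 (hs c hc0 hc1).1 (hs c hc0 hc1).2 hF x).1).trans
        (num1 ρ c h0 h1 hc0 hc1)
  · exact ((hbes α ρ F 2 h0.le h1 hF x).1).trans (num0 ρ h0 h1)
  · have h := dual_bound ((univ : Finset α).sigma fun i => univ.erase i)
      (fun p : (Σ _ : α, α) => ev (fl (fl x p.1) p.2) - ev (fl x p.1) - ev (fl x p.2) + ev x)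
      (fun p => by simp [ev]) ρ F _ hB (fun c hc0 hc1 => by
        rw [Finset.sum_sigma]
        exact ((hbes α (c * ρ) F 2 (hs c hc0 hc1).1 (hs c hc0 hc1).2 hF x).2).trans
          (num2 ρ c h0 h1 hc0 hc1))
    rw [Finset.sum_sigma] at h
    exact h

end Pool.Agent.STR.H38P

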